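import Mathlib

set_option autoImplicit false

namespace Pool.Agent.AstralLift

/-- Euclidean space of dimension `m`. -/
abbrev Space (m : ℕ) := EuclideanSpace ℝ (Fin m)

/-- `l` is a straight line. -/
def IsStraightLine {m : ℕ} (l : Set (Space m)) : Prop :=
  ∃ a b : Space m, a ≠ b ∧ l = (line[ℝ, a, b] : Set (Space m))

/-- `I i j` (point `i` is incident with line `j`) is a combinatorial `(n_4)` configuration. -/
structure IsCombinatorialConfiguration {n : ℕ} (I : Fin n → Fin n → Prop) : Prop where
  four_points : ∀ j, {i | I i j}.ncard = 4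
  four_lines : ∀ i, {j | I i j}.ncard = 4
  share_one : ∀ i i', i ≠ i' → ∀ j j', I i j → I i' j → I i j' → I i' j' → j = j'

/-- Distinct points `p i` and distinct straight lines `l j` with `p i ∈ l j` if and only if
`i` and `j` are incident. -/
structure IsRealisation {n m : ℕ} (I : Fin n → Fin n → Prop) (p : Fin n → Space m)
    (l : Fin n → Set (Space m)) : Prop where
  points_injective : Function.Injective p
  lines_injective : Function.Injective l
  straight : ∀ j, IsStraightLine (l j)
  incidence : ∀ i j, p i ∈ l j ↔ I i j

/-- The isometry `f` of the plane maps the set of points onto itself and the set of lines onto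
itself. -/
def IsSymmetry {n : ℕ} (p : Fin n → Space 2) (l : Fin n → Set (Space 2))
    (f : Space 2 ≃ᵢ Space 2) : Prop :=
  f '' Set.range p = Set.range p ∧ (fun s => f '' s) '' Set.range l = Set.range l

/-- The orbits of the points under the symmetry group. -/
def pointOrbits {n : ℕ} (p : Fin n → Space 2) (l : Fin n → Set (Space 2)) :
    Set (Set (Space 2)) :=
  {O | ∃ x ∈ Set.range p, O = {y | ∃ f, IsSymmetry p l f ∧ f x = y}}

/-- The orbits of the lines under the symmetry group. -/
def lineOrbits {n : ℕ} (p : Fin n → Space 2) (l : Fin n → Set (Space 2)) :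
    Set (Set (Set (Space 2))) :=
  {O | ∃ s ∈ Set.range l, O = {s' | ∃ f, IsSymmetry p l f ∧ f '' s = s'}}

/-- There are exactly `k` orbits of points and exactly `k` orbits of lines. -/
def IsAstral {n : ℕ} (k : ℕ) (p : Fin n → Space 2) (l : Fin n → Set (Space 2)) : Prop :=
  (pointOrbits p l).ncard = k ∧ (lineOrbits p l).ncard = k

end Pool.Agent.AstralLift
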