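import Mathlib
import Pool.Agent.AstralLift.Defs

set_option autoImplicit false
set_option maxRecDepth 100000

namespace Pool.Agent.AstralLift

/-! ### the data -/

/-- Twice the cosine of `30 q` degrees. -/
def C2 (q : ℕ) : ℤ√3 :=
  match q % 12 with
  | 0 => ⟨2, 0⟩ | 1 => ⟨0, 1⟩ | 2 => ⟨1, 0⟩ | 3 => ⟨0, 0⟩ | 4 => ⟨-1, 0⟩ | 5 => ⟨0, -1⟩
  | 6 => ⟨-2, 0⟩ | 7 => ⟨0, -1⟩ | 8 => ⟨-1, 0⟩ | 9 => ⟨0, 0⟩ | 10 => ⟨1, 0⟩ | _ => ⟨0, 1⟩

def R2 (i : ℕ) : ℤ√3 := match i with | 0 => ⟨2, 0⟩ | 1 => ⟨1, 1⟩ | _ => ⟨-1, 1⟩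

def H (i : ℕ) : ℤ√3 := match i with | 0 => ⟨1, 0⟩ | 1 => ⟨-2, -1⟩ | _ => ⟨-2, 1⟩

def X (x : Fin 36) : ℤ√3 := R2 (x / 12) * C2 (x % 12)
def Y (x : Fin 36) : ℤ√3 := R2 (x / 12) * C2 (x % 12 + 9)
def Z (x : Fin 36) : ℤ√3 := H (x / 12) * (if (x : ℕ) % 2 = 0 then 1 else -1)

def mk (i q : ℕ) : Fin 36 := ⟨12 * (i % 3) + q % 12, by omega⟩

def sv (c : ℕ) : ℕ := match c with | 0 => 1 | 1 => 5 | _ => 3
def uv (c : ℕ) : ℕ := match c with | 0 => 11 | 1 => 2 | _ => 11
def vv (c : ℕ) : ℕ := match c with | 0 => 2 | 1 => 3 | _ => 4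

def pa (j : Fin 36) : Fin 36 := mk (j / 12) (j % 12)
def pb (j : Fin 36) : Fin 36 := mk (j / 12) (j % 12 + sv (j / 12))
def pc (j : Fin 36) : Fin 36 := mk (j / 12 + 1) (j % 12 + uv (j / 12))
def pd (j : Fin 36) : Fin 36 := mk (j / 12 + 1) (j % 12 + vv (j / 12))

def Inc (x j : Fin 36) : Prop := x = pa j ∨ x = pb j ∨ x = pc j ∨ x = pd j

instance (x j : Fin 36) : Decidable (Inc x j) := by unfold Inc; infer_instance

theorem card1 : ∀ j, (Finset.univ.filter (fun x => Inc x j)).card = 4 := by decide +kernel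
theorem card2 : ∀ x, (Finset.univ.filter (fun j => Inc x j)).card = 4 := by decide +kernel
theorem plane : ∀ x j, Inc x j ↔ (X (pb j) - X (pa j)) * (Y x - Y (pa j)) =
    (Y (pb j) - Y (pa j)) * (X x - X (pa j)) := by decide +kernel
theorem inj : ∀ x y, X x = X y → Y x = Y y → x = y := by decide +kernel
theorem inj2 : ∀ j j', Inc (pa j) j' → Inc (pb j) j' → j = j' := by decide +kernel
theorem pa_ne_pb : ∀ j, pa j ≠ pb j := by decide +kernel
theorem lift : ∀ x j, Inc x j →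
    (X (pb j) - X (pa j)) * (Z x - Z (pa j)) = (Z (pb j) - Z (pa j)) * (X x - X (pa j)) ∧
    (Y (pb j) - Y (pa j)) * (Z x - Z (pa j)) = (Z (pb j) - Z (pa j)) * (Y x - Y (pa j)) := by
  decide +kernel

def rot (x : Fin 36) : Fin 36 := mk (x / 12) (x % 12 + 1)

theorem rotX : ∀ x, 2 * X (rot x) = ⟨0, 1⟩ * X x - Y x := by decide +kernel
theorem rotY : ∀ x, 2 * Y (rot x) = X x + ⟨0, 1⟩ * Y x := by decide +kernel
theorem rotpa : ∀ j, pa (rot j) = rot (pa j) := by decide +kernel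
theorem rotpb : ∀ j, pb (rot j) = rot (pb j) := by decide +kernel
theorem rot_surj : ∀ x, ∃ y, rot y = x := by decide +kernel
theorem rot_iter : ∀ x y : Fin 36, (x : ℕ) / 12 = y / 12 → ∃ k : Fin 12, rot^[k] x = y := by
  decide +kernel
theorem rot_iter_div : ∀ (x : Fin 36), (rot x : ℕ) / 12 = x / 12 := by decide +kernel
theorem normsq : ∀ x, X x ^ 2 + Y x ^ 2 = 4 * R2 (x / 12) ^ 2 := by decide +kernel
theorem normsq_ne : ∀ x y : Fin 36, 4 * R2 (x / 12) ^ 2 = 4 * R2 (y / 12) ^ 2 →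
    (x : ℕ) / 12 = y / 12 := by decide +kernel
theorem sumX : ∑ x, X x = 0 := by decide +kernel
theorem sumY : ∑ x, Y x = 0 := by decide +kernel
theorem line_class : ∀ j' y1 y2 : Fin 36, Inc y1 j' → Inc y2 j' →
    (y2 : ℕ) / 12 = (y1 / 12 + 1) % 3 → (y1 : ℕ) / 12 = j' / 12 := by decide +kernel
theorem pa_class : ∀ j : Fin 36, (pa j : ℕ) / 12 = j / 12 := by decide +kernel
theorem pc_class : ∀ j : Fin 36, (pc j : ℕ) / 12 = (j / 12 + 1) % 3 := by decide +kernel
theorem det_ne : (X 1 - X 0) * ((Y 2 - Y 0) * (Z 3 - Z 0) - (Z 2 - Z 0) * (Y 3 - Y 0)) -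
    (Y 1 - Y 0) * ((X 2 - X 0) * (Z 3 - Z 0) - (Z 2 - Z 0) * (X 3 - X 0)) +
    (Z 1 - Z 0) * ((X 2 - X 0) * (Y 3 - Y 0) - (Y 2 - Y 0) * (X 3 - X 0)) ≠ 0 := by decide +kernel

/-! ### the geometry -/

noncomputable def φ : ℤ√3 →+* ℝ := Zsqrtd.toReal (d := 3) (by norm_num)

lemma φ_injective : Function.Injective φ := by
  apply Zsqrtd.toReal_injective
  intro n h
  have h1 : n ≤ 1 ∨ 2 ≤ n := by omega
  have h2 : -1 ≤ n ∨ n ≤ -2 := by omega
  rcases h1 with h1 | h1 <;> rcases h2 with h2 | h2 <;> nlinarith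

lemma φ_sqrt : φ ⟨0, 1⟩ = √3 := by
  simp [φ]

lemma φ_sqrt_sq : φ ⟨0, 1⟩ ^ 2 = 3 := by
  rw [φ_sqrt]; exact Real.sq_sqrt (by norm_num)

noncomputable def P (x : Fin 36) : Space 2 := WithLp.toLp 2 ![φ (X x), φ (Y x)]

noncomputable def Q (x : Fin 36) : Space 3 := WithLp.toLp 2 ![φ (X x), φ (Y x), φ (Z x)]

lemma P0 (x : Fin 36) : P x 0 = φ (X x) := rfl
lemma P1 (x : Fin 36) : P x 1 = φ (Y x) := rfl
lemma Q0 (x : Fin 36) : Q x 0 = φ (X x) := rfl
lemma Q1 (x : Fin 36) : Q x 1 = φ (Y x) := rfl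
lemma Q2 (x : Fin 36) : Q x 2 = φ (Z x) := rfl

lemma P_injective : Function.Injective P := by
  intro x y h
  apply inj
  · exact φ_injective (by rw [← P0, ← P0, h])
  · exact φ_injective (by rw [← P1, ← P1, h])

lemma Q_injective : Function.Injective Q := by
  intro x y h
  apply inj
  · exact φ_injective (by rw [← Q0, ← Q0, h])
  · exact φ_injective (by rw [← Q1, ← Q1, h])

lemma mem_line_iff {m : ℕ} (u v w : Space m) :
    w ∈ line[ℝ, u, v] ↔ ∃ r : ℝ, ∀ i, w i = u i + r * (v i - u i) := by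
  rw [mem_affineSpan_pair_iff_exists_lineMap_eq]
  constructor
  · rintro ⟨r, rfl⟩
    refine ⟨r, fun i => ?_⟩
    simp [AffineMap.lineMap_apply_module']
    ring
  · rintro ⟨r, hr⟩
    refine ⟨r, ?_⟩
    ext i
    rw [hr i]
    simp [AffineMap.lineMap_apply_module']
    ring

lemma mem_line_two {u v w : Space 2} (h : u ≠ v) :
    w ∈ line[ℝ, u, v] ↔ (v 0 - u 0) * (w 1 - u 1) = (v 1 - u 1) * (w 0 - u 0) := by
  rw [mem_line_iff]
  constructor
  · rintro ⟨r, hr⟩
    rw [hr 0, hr 1]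
    ring
  · intro heq
    by_cases h0 : v 0 - u 0 = 0
    · have h1 : v 1 - u 1 ≠ 0 := by
        intro h1
        apply h
        ext i
        fin_cases i
        · exact (sub_eq_zero.mp h0).symm
        · exact (sub_eq_zero.mp h1).symm
      refine ⟨(w 1 - u 1) / (v 1 - u 1), fun i => ?_⟩
      fin_cases i
      · simp only [Fin.zero_eta, h0, mul_zero, add_zero]
        rw [h0, zero_mul] at heq
        have := (mul_eq_zero.mp heq.symm).resolve_left h1
        linarith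
      · simp only [Fin.mk_one]
        field_simp
        ring
    · refine ⟨(w 0 - u 0) / (v 0 - u 0), fun i => ?_⟩
      fin_cases i
      · simp only [Fin.zero_eta]
        field_simp
        ring
      · simp only [Fin.mk_one]
        field_simp
        linarith

noncomputable def L (j : Fin 36) : Set (Space 2) := (line[ℝ, P (pa j), P (pb j)] : Set (Space 2))

noncomputable def M (j : Fin 36) : Set (Space 3) := (line[ℝ, Q (pa j), Q (pb j)] : Set (Space 3))

lemma P_ne (j : Fin 36) : P (pa j) ≠ P (pb j) := fun h => pa_ne_pb j (P_injective h)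

lemma P_mem (x j : Fin 36) : P x ∈ L j ↔ Inc x j := by
  unfold L
  rw [SetLike.mem_coe, mem_line_two (P_ne j), plane]
  simp only [P0, P1, ← map_sub, ← map_mul]
  exact φ_injective.eq_iff

lemma Q_mem (x j : Fin 36) : Q x ∈ M j ↔ Inc x j := by
  unfold M
  rw [SetLike.mem_coe, mem_line_iff]
  constructor
  · rintro ⟨r, hr⟩
    rw [← P_mem]
    unfold L
    rw [SetLike.mem_coe, mem_line_iff]
    refine ⟨r, fun i => ?_⟩
    fin_cases i
    · exact hr 0
    · exact hr 1
  · intro h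
    have h1 := (P_mem x j).mpr h
    unfold L at h1
    rw [SetLike.mem_coe, mem_line_iff] at h1
    obtain ⟨r, hr⟩ := h1
    have hx := hr 0
    have hy := hr 1
    rw [P0, P0, P0] at hx
    rw [P1, P1, P1] at hy
    obtain ⟨h2, h3⟩ := lift x j h
    have h2' := congrArg φ h2
    have h3' := congrArg φ h3
    simp only [map_mul, map_sub] at h2' h3'
    have hz : φ (Z x) = φ (Z (pa j)) + r * (φ (Z (pb j)) - φ (Z (pa j))) := by
      by_cases h0 : φ (X (pb j)) - φ (X (pa j)) = 0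
      · have h4 : φ (Y (pb j)) - φ (Y (pa j)) ≠ 0 := by
          intro h4
          apply P_ne j
          ext i
          fin_cases i
          · exact (sub_eq_zero.mp h0).symm
          · exact (sub_eq_zero.mp h4).symm
        apply mul_left_cancel₀ h4
        rw [hy] at h3'
        linear_combination h3'
      · apply mul_left_cancel₀ h0
        rw [hx] at h2'
        linear_combination h2'
    refine ⟨r, fun i => ?_⟩
    fin_cases i
    · exact hx
    · exact hy
    · exact hz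

lemma L_injective : Function.Injective L := by
  intro j j' h
  apply inj2
  · rw [← P_mem, ← h, P_mem]; exact Or.inl rfl
  · rw [← P_mem, ← h, P_mem]; exact Or.inr (Or.inl rfl)

lemma M_injective : Function.Injective M := by
  intro j j' h
  apply inj2
  · rw [← Q_mem, ← h, Q_mem]; exact Or.inl rfl
  · rw [← Q_mem, ← h, Q_mem]; exact Or.inr (Or.inl rfl)

lemma realisation_plane : IsRealisation Inc P L :=
  ⟨P_injective, L_injective, fun j => ⟨_, _, P_ne j, rfl⟩, P_mem⟩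

lemma realisation_space : IsRealisation Inc Q M :=
  ⟨Q_injective, M_injective, fun j => ⟨_, _, fun h => pa_ne_pb j (Q_injective h), rfl⟩, Q_mem⟩

lemma combinatorial : IsCombinatorialConfiguration Inc := by
  refine ⟨fun j => ?_, fun i => ?_, ?_⟩
  · rw [Set.ncard_eq_toFinset_card']
    convert card1 j using 2
    ext x; simp
  · rw [Set.ncard_eq_toFinset_card']
    convert card2 i using 2
    ext x; simp
  · intro i i' hne j j' h1 h2 h3 h4
    apply L_injective
    have hne' : P i ≠ P i' := fun h => hne (P_injective h)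
    have key : ∀ j, Inc i j → Inc i' j → L j = (line[ℝ, P i, P i'] : Set (Space 2)) := by
      intro j h1 h2
      have e1 := (P_mem i j).mpr h1
      have e2 := (P_mem i' j).mpr h2
      unfold L at e1 e2 ⊢
      rw [SetLike.mem_coe] at e1 e2
      rw [SetLike.coe_set_eq]
      symm
      apply affineSpan_pair_eq_of_mem_of_mem_of_ne
      · exact e1
      · exact e2
      · exact hne'
    rw [key j h1 h2, key j' h3 h4]

/-! ### the rotation -/

noncomputable def rotLin : Space 2 →ₗ[ℝ] Space 2 where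
  toFun v := WithLp.toLp 2 ![√3 / 2 * v 0 - 1 / 2 * v 1, 1 / 2 * v 0 + √3 / 2 * v 1]
  map_add' u v := by
    ext i; fin_cases i <;> simp <;> ring
  map_smul' c v := by
    ext i; fin_cases i <;> simp <;> ring

lemma rotLin_norm (v : Space 2) : ‖rotLin v‖ = ‖v‖ := by
  rw [EuclideanSpace.norm_eq, EuclideanSpace.norm_eq]
  congr 1
  simp only [Fin.sum_univ_two, Real.norm_eq_abs, sq_abs]
  change (√3 / 2 * v 0 - 1 / 2 * v 1) ^ 2 + (1 / 2 * v 0 + √3 / 2 * v 1) ^ 2 = v 0 ^ 2 + v 1 ^ 2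
  have h3 : √3 ^ 2 = (3 : ℝ) := Real.sq_sqrt (by norm_num)
  linear_combination (v 0 ^ 2 / 4 + v 1 ^ 2 / 4) * h3

noncomputable def rotIso : Space 2 ≃ₗᵢ[ℝ] Space 2 :=
  LinearIsometry.toLinearIsometryEquiv ⟨rotLin, rotLin_norm⟩ rfl

noncomputable def rotF : Space 2 ≃ᵢ Space 2 := rotIso.toIsometryEquiv

lemma rotF_P (x : Fin 36) : rotF (P x) = P (rot x) := by
  have h1 := congrArg φ (rotX x)
  have h2 := congrArg φ (rotY x)
  simp only [map_mul, map_sub, map_add, φ_sqrt, map_ofNat] at h1 h2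
  ext i
  fin_cases i
  · change √3 / 2 * φ (X x) - 1 / 2 * φ (Y x) = φ (X (rot x))
    linarith
  · change 1 / 2 * φ (X x) + √3 / 2 * φ (Y x) = φ (Y (rot x))
    linarith

lemma image_line (f : Space 2 ≃ᵢ Space 2) (u v : Space 2) :
    f '' (line[ℝ, u, v] : Set (Space 2)) = (line[ℝ, f u, f v] : Set (Space 2)) := by
  have h := congrArg (fun s : AffineSubspace ℝ (Space 2) => (s : Set (Space 2)))
    (AffineSubspace.map_span f.toRealAffineIsometryEquiv.toAffineEquiv.toAffineMap {u, v})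
  simp only [AffineSubspace.coe_map, Set.image_pair] at h
  exact h

lemma rotF_L (j : Fin 36) : rotF '' L j = L (rot j) := by
  unfold L
  rw [image_line, rotF_P, rotF_P, rotpa, rotpb]

lemma rotF_symmetry : IsSymmetry P L rotF := by
  constructor
  · ext y
    constructor
    · rintro ⟨_, ⟨x, rfl⟩, rfl⟩
      exact ⟨rot x, (rotF_P x).symm⟩
    · rintro ⟨x, rfl⟩
      obtain ⟨z, rfl⟩ := rot_surj x
      exact ⟨P z, ⟨z, rfl⟩, rotF_P z⟩
  · ext y
    constructor
    · rintro ⟨_, ⟨x, rfl⟩, rfl⟩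
      exact ⟨rot x, (rotF_L x).symm⟩
    · rintro ⟨x, rfl⟩
      obtain ⟨z, rfl⟩ := rot_surj x
      exact ⟨L z, ⟨z, rfl⟩, rotF_L z⟩

lemma coe_trans (f g : Space 2 ≃ᵢ Space 2) : ⇑(f.trans g) = g ∘ f := rfl

lemma coe_refl : ⇑(IsometryEquiv.refl (Space 2)) = id := rfl

lemma symmetry_trans {f g : Space 2 ≃ᵢ Space 2} (hf : IsSymmetry P L f)
    (hg : IsSymmetry P L g) : IsSymmetry P L (f.trans g) := by
  constructor
  · rw [coe_trans, Set.image_comp, hf.1, hg.1]
  · have : (fun s => (f.trans g) '' s) = (fun s => g '' s) ∘ (fun s : Set (Space 2) => f '' s) := by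
      funext s
      rw [coe_trans, Set.image_comp]
      rfl
    rw [this, Set.image_comp, hf.2, hg.2]

lemma symmetry_refl : IsSymmetry P L (IsometryEquiv.refl _) := by
  constructor
  · rw [coe_refl, Set.image_id]
  · have : (fun s => (IsometryEquiv.refl (Space 2)) '' s) = (id : Set (Space 2) → Set (Space 2)) := by
      funext s
      rw [coe_refl, Set.image_id]
      rfl
    rw [this, Set.image_id]

lemma exists_iter (k : ℕ) : ∃ f, IsSymmetry P L f ∧ (∀ x, f (P x) = P (rot^[k] x)) ∧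
    ∀ j, f '' L j = L (rot^[k] j) := by
  induction k with
  | zero => exact ⟨_, symmetry_refl, fun x => rfl, fun j => by rw [coe_refl, Set.image_id]; rfl⟩
  | succ k ih =>
    obtain ⟨f, hf, h1, h2⟩ := ih
    refine ⟨f.trans rotF, symmetry_trans hf rotF_symmetry, fun x => ?_, fun j => ?_⟩
    · rw [IsometryEquiv.trans_apply, h1, rotF_P, Function.iterate_succ_apply']
    · rw [coe_trans, Set.image_comp, h2, rotF_L, Function.iterate_succ_apply']

/-- A symmetry fixes the origin. -/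
lemma symmetry_zero {f : Space 2 ≃ᵢ Space 2} (hf : IsSymmetry P L f) : f 0 = 0 := by
  classical
  have hsum : ∑ x, P x = 0 := by
    ext i
    have hs : (∑ x, P x) i = ∑ x, P x i := by simp
    rw [hs]
    fin_cases i
    · change ∑ x, φ (X x) = 0
      rw [← map_sum, sumX, map_zero]
    · change ∑ x, φ (Y x) = 0
      rw [← map_sum, sumY, map_zero]
  have himg : (Finset.univ.image P).image f = Finset.univ.image P := by
    rw [← Finset.coe_inj]
    simp only [Finset.coe_image, Finset.coe_univ, Set.image_univ]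
    exact hf.1
  have h1 : ∑ v ∈ Finset.univ.image P, v = 0 := by
    rw [Finset.sum_image (fun a _ b _ h => P_injective h)]
    exact hsum
  have h2 : ∑ v ∈ (Finset.univ.image P).image f, v = 0 := by rw [himg]; exact h1
  rw [Finset.sum_image (fun a _ b _ h => f.injective h),
    Finset.sum_image (fun a _ b _ h => P_injective h)] at h2
  have h3 : ∀ x, f (P x) = f.toRealLinearIsometryEquiv (P x) + f 0 := by
    intro x
    rw [IsometryEquiv.toRealLinearIsometryEquiv_apply]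
    abel
  simp only [h3] at h2
  rw [Finset.sum_add_distrib, ← map_sum, hsum, map_zero, zero_add, Finset.sum_const] at h2
  rw [← Nat.cast_smul_eq_nsmul ℝ] at h2
  exact (smul_eq_zero.mp h2).resolve_left (by simp)

lemma symmetry_class {f : Space 2 ≃ᵢ Space 2} (hf : IsSymmetry P L f) {x y : Fin 36}
    (h : f (P x) = P y) : (x : ℕ) / 12 = y / 12 := by
  have hn : ‖P x‖ = ‖P y‖ := by
    rw [← h, ← dist_zero_right, ← dist_zero_right (f (P x))]
    conv_rhs => rw [← symmetry_zero hf]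
    rw [f.dist_eq]
  rw [EuclideanSpace.norm_eq, EuclideanSpace.norm_eq, Real.sqrt_inj (by positivity) (by positivity)]
    at hn
  simp only [Fin.sum_univ_two, Real.norm_eq_abs, sq_abs] at hn
  rw [P0, P1, P0, P1, ← map_pow, ← map_pow, ← map_pow, ← map_pow, ← map_add, ← map_add] at hn
  have := φ_injective hn
  rw [normsq, normsq] at this
  exact normsq_ne x y this

lemma symmetry_line_class {f : Space 2 ≃ᵢ Space 2} (hf : IsSymmetry P L f) {j k : Fin 36}
    (h : f '' L j = L k) : (j : ℕ) / 12 = k / 12 := by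
  have hpt : ∀ x, ∃ y, f (P x) = P y := by
    intro x
    have : f (P x) ∈ Set.range P := by rw [← hf.1]; exact ⟨P x, ⟨x, rfl⟩, rfl⟩
    obtain ⟨y, hy⟩ := this
    exact ⟨y, hy.symm⟩
  obtain ⟨y1, h1⟩ := hpt (pa j)
  obtain ⟨y2, h2⟩ := hpt (pc j)
  have m1 : Inc y1 k := by
    rw [← P_mem, ← h, ← h1]
    exact ⟨_, (P_mem _ _).mpr (Or.inl rfl), rfl⟩
  have m2 : Inc y2 k := by
    rw [← P_mem, ← h, ← h2]
    exact ⟨_, (P_mem _ _).mpr (Or.inr (Or.inr (Or.inl rfl))), rfl⟩
  have c1 := symmetry_class hf h1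
  have c2 := symmetry_class hf h2
  rw [pa_class] at c1
  rw [pc_class] at c2
  rw [c1]
  exact line_class k y1 y2 m1 m2 (by rw [← c2, c1])

lemma ncard_classes {α : Type} (p : Fin 36 → α) (hp : Function.Injective p) :
    {O : Set α | ∃ x : Fin 36, O = {y | ∃ z : Fin 36, (z : ℕ) / 12 = x / 12 ∧ p z = y}}.ncard = 3 := by
  rw [Set.ncard_eq_three]
  refine ⟨{y | ∃ z : Fin 36, (z : ℕ) / 12 = 0 ∧ p z = y},
    {y | ∃ z : Fin 36, (z : ℕ) / 12 = 1 ∧ p z = y},
    {y | ∃ z : Fin 36, (z : ℕ) / 12 = 2 ∧ p z = y}, ?_, ?_, ?_, ?_⟩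
  · intro h
    have : p 0 ∈ {y | ∃ z : Fin 36, (z : ℕ) / 12 = 0 ∧ p z = y} := ⟨0, rfl, rfl⟩
    rw [h] at this
    obtain ⟨z, hz, hz'⟩ := this
    rw [hp hz'] at hz
    exact absurd hz (by decide)
  · intro h
    have : p 0 ∈ {y | ∃ z : Fin 36, (z : ℕ) / 12 = 0 ∧ p z = y} := ⟨0, rfl, rfl⟩
    rw [h] at this
    obtain ⟨z, hz, hz'⟩ := this
    rw [hp hz'] at hz
    exact absurd hz (by decide)
  · intro h
    have : p 12 ∈ {y | ∃ z : Fin 36, (z : ℕ) / 12 = 1 ∧ p z = y} := ⟨12, rfl, rfl⟩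
    rw [h] at this
    obtain ⟨z, hz, hz'⟩ := this
    rw [hp hz'] at hz
    exact absurd hz (by decide)
  · ext O
    simp only [Set.mem_insert_iff, Set.mem_singleton_iff]
    constructor
    · rintro ⟨x, rfl⟩
      have : (x : ℕ) / 12 = 0 ∨ (x : ℕ) / 12 = 1 ∨ (x : ℕ) / 12 = 2 := by omega
      rcases this with h | h | h
      · left; rw [h]
      · right; left; rw [h]
      · right; right; rw [h]
    · rintro (h | h | h)
      · exact ⟨0, h⟩
      · exact ⟨12, h⟩
      · exact ⟨24, h⟩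

lemma astral : IsAstral 3 P L := by
  constructor
  · rw [← ncard_classes P P_injective]
    congr 1
    ext O
    constructor
    · rintro ⟨_, ⟨x, rfl⟩, rfl⟩
      refine ⟨x, ?_⟩
      ext y
      constructor
      · rintro ⟨f, hf, rfl⟩
        have : f (P x) ∈ Set.range P := by rw [← hf.1]; exact ⟨P x, ⟨x, rfl⟩, rfl⟩
        obtain ⟨z, hz⟩ := this
        exact ⟨z, (symmetry_class hf hz.symm).symm, hz⟩
      · rintro ⟨z, hz, rfl⟩
        obtain ⟨k, hk⟩ := rot_iter x z hz.symm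
        obtain ⟨f, hf, h1, -⟩ := exists_iter k
        exact ⟨f, hf, by rw [h1, hk]⟩
    · rintro ⟨x, rfl⟩
      refine ⟨P x, ⟨x, rfl⟩, ?_⟩
      ext y
      constructor
      · rintro ⟨z, hz, rfl⟩
        obtain ⟨k, hk⟩ := rot_iter x z hz.symm
        obtain ⟨f, hf, h1, -⟩ := exists_iter k
        exact ⟨f, hf, by rw [h1, hk]⟩
      · rintro ⟨f, hf, rfl⟩
        have : f (P x) ∈ Set.range P := by rw [← hf.1]; exact ⟨P x, ⟨x, rfl⟩, rfl⟩
        obtain ⟨z, hz⟩ := this
        exact ⟨z, (symmetry_class hf hz.symm).symm, hz⟩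
  · rw [← ncard_classes L L_injective]
    congr 1
    ext O
    constructor
    · rintro ⟨_, ⟨x, rfl⟩, rfl⟩
      refine ⟨x, ?_⟩
      ext y
      constructor
      · rintro ⟨f, hf, rfl⟩
        have : f '' L x ∈ Set.range L := by rw [← hf.2]; exact ⟨L x, ⟨x, rfl⟩, rfl⟩
        obtain ⟨z, hz⟩ := this
        exact ⟨z, (symmetry_line_class hf hz.symm).symm, hz⟩
      · rintro ⟨z, hz, rfl⟩
        obtain ⟨k, hk⟩ := rot_iter x z hz.symm
        obtain ⟨f, hf, -, h1⟩ := exists_iter k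
        exact ⟨f, hf, by rw [h1, hk]⟩
    · rintro ⟨x, rfl⟩
      refine ⟨L x, ⟨x, rfl⟩, ?_⟩
      ext y
      constructor
      · rintro ⟨z, hz, rfl⟩
        obtain ⟨k, hk⟩ := rot_iter x z hz.symm
        obtain ⟨f, hf, -, h1⟩ := exists_iter k
        exact ⟨f, hf, by rw [h1, hk]⟩
      · rintro ⟨f, hf, rfl⟩
        have : f '' L x ∈ Set.range L := by rw [← hf.2]; exact ⟨L x, ⟨x, rfl⟩, rfl⟩
        obtain ⟨z, hz⟩ := this
        exact ⟨z, (symmetry_line_class hf hz.symm).symm, hz⟩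

/-! ### the space realisation spans -/

lemma span_top : affineSpan ℝ (Set.range Q) = ⊤ := by
  rw [← AffineSubspace.direction_eq_top_iff_of_nonempty
    ((affineSpan_nonempty (k := ℝ)).mpr (Set.range_nonempty Q)), direction_affineSpan]
  by_contra hne
  have hlt : vectorSpan ℝ (Set.range Q) < ⊤ := lt_top_iff_ne_top.mpr hne
  obtain ⟨f, hf, hker⟩ := Submodule.exists_le_ker_of_lt_top _ hlt
  have hval : ∀ x, f (Q x - Q 0) = 0 := fun x =>
    LinearMap.mem_ker.mp (hker (vsub_mem_vectorSpan ℝ ⟨x, rfl⟩ ⟨0, rfl⟩))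
  set a := f (EuclideanSpace.single 0 1) with ha
  set b := f (EuclideanSpace.single 1 1) with hb
  set c := f (EuclideanSpace.single 2 1) with hc
  have hfv : ∀ v : Space 3, f v = v 0 * a + v 1 * b + v 2 * c := by
    intro v
    have : v = v 0 • EuclideanSpace.single (0 : Fin 3) (1 : ℝ) +
        v 1 • EuclideanSpace.single (1 : Fin 3) (1 : ℝ) +
        v 2 • EuclideanSpace.single (2 : Fin 3) (1 : ℝ) := by
      ext i
      fin_cases i <;> simp
    conv_lhs => rw [this]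
    rw [map_add, map_add, map_smul, map_smul, map_smul, ← ha, ← hb, ← hc]
    simp only [smul_eq_mul]
  have h1 := hval 1
  have h2 := hval 2
  have h3 := hval 3
  rw [hfv] at h1 h2 h3
  simp only [PiLp.sub_apply, Q0, Q1, Q2, ← map_sub] at h1 h2 h3
  have hdet : φ ((X 1 - X 0) * ((Y 2 - Y 0) * (Z 3 - Z 0) - (Z 2 - Z 0) * (Y 3 - Y 0)) -
    (Y 1 - Y 0) * ((X 2 - X 0) * (Z 3 - Z 0) - (Z 2 - Z 0) * (X 3 - X 0)) +
    (Z 1 - Z 0) * ((X 2 - X 0) * (Y 3 - Y 0) - (Y 2 - Y 0) * (X 3 - X 0))) ≠ 0 := by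
    rw [Ne, map_eq_zero_iff φ φ_injective]
    exact det_ne
  rw [map_add, map_sub, map_mul, map_mul, map_mul, map_sub φ ((Y 2 - Y 0) * (Z 3 - Z 0)),
    map_sub φ ((X 2 - X 0) * (Z 3 - Z 0)), map_sub φ ((X 2 - X 0) * (Y 3 - Y 0))] at hdet
  simp only [map_mul] at hdet
  generalize φ (X 1 - X 0) = x1 at *
  generalize φ (X 2 - X 0) = x2 at *
  generalize φ (X 3 - X 0) = x3 at *
  generalize φ (Y 1 - Y 0) = y1 at *
  generalize φ (Y 2 - Y 0) = y2 at *
  generalize φ (Y 3 - Y 0) = y3 at *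
  generalize φ (Z 1 - Z 0) = z1 at *
  generalize φ (Z 2 - Z 0) = z2 at *
  generalize φ (Z 3 - Z 0) = z3 at *
  have ea : a = 0 := by
    apply (mul_eq_zero.mp _).resolve_left hdet
    linear_combination (y2 * z3 - z2 * y3) * h1 - (y1 * z3 - z1 * y3) * h2 +
      (y1 * z2 - z1 * y2) * h3
  have eb : b = 0 := by
    apply (mul_eq_zero.mp _).resolve_left hdet
    linear_combination -(x2 * z3 - z2 * x3) * h1 + (x1 * z3 - z1 * x3) * h2 -
      (x1 * z2 - z1 * x2) * h3
  have ec : c = 0 := by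
    apply (mul_eq_zero.mp _).resolve_left hdet
    linear_combination (x2 * y3 - y2 * x3) * h1 - (x1 * y3 - y1 * x3) * h2 +
      (x1 * y2 - y1 * x2) * h3
  apply hf
  ext v
  rw [hfv, ea, eb, ec]
  simp

/-- A 3-astral `(36_4)` configuration whose combinatorial configuration has a geometric realisation
in three-dimensional space which does not lie in a plane. -/
theorem main : ∃ (I : Fin 36 → Fin 36 → Prop) (p : Fin 36 → Space 2) (l : Fin 36 → Set (Space 2))
    (q : Fin 36 → Space 3) (m : Fin 36 → Set (Space 3)),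
    IsCombinatorialConfiguration I ∧ IsRealisation I p l ∧ IsAstral 3 p l ∧
      IsRealisation I q m ∧ ∀ x : Space 3, x ∈ affineSpan ℝ (Set.range q) :=
  ⟨Inc, P, L, Q, M, combinatorial, realisation_plane, astral, realisation_space,
    fun x => by rw [span_top]; exact AffineSubspace.mem_top _ _ x⟩

end Pool.Agent.AstralLift
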